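import Pool.Agent.H15.TG.Targets

/-!
Row CZF of the board `tga_modules` (helper56).
-/

set_option autoImplicit false

namespace Pool.Agent.H56.TG

open MvPolynomial Pool.Agent.H2.ST Pool.Agent.H15.TG

theorem pf_CZF (hSLH : T_SLH) : T_CZF := by
  intro k _ _ _ m d W K H f h x hx hx0
  have h1 := hSLH k m d W K H f h.toFd x hx hx0
  have h2 : Algebra.adjoin k
      ({z : Pol k m | z ∈ Cf K f ∧ z ∈ W 0 ∧ ∀ g ∈ Cf K f, br g z = 0} ∪ Set.range H) ≤
      Algebra.adjoin k (Set.range (Sum.elim (fun _ : Unit => f) H)) := by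
    refine Algebra.adjoin_le ?_
    rintro z (hz | ⟨j, rfl⟩)
    · have h3 := h.ce z (mem_Cf.1 hz.1).1 hz.2.1 hz.2.2
      refine Algebra.adjoin_mono ?_ h3
      rintro z' rfl
      exact ⟨Sum.inl (), rfl⟩
    · exact Algebra.subset_adjoin ⟨Sum.inr j, rfl⟩
  have h4 := h2 h1
  rw [Algebra.adjoin_range_eq_range_aeval] at h4
  exact h4

end Pool.Agent.H56.TG
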