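import Pool.Agent.H15.TG.Targets

/-!
Row FAX of the board `tga_modules` (helper56).
-/

set_option autoImplicit false

namespace Pool.Agent.H56.TG

open MvPolynomial Pool.Agent.H2.ST Pool.Agent.H15.TG

theorem pf_FAX (hSPE : T_SPE) (hCFC : T_CFC) (hFAC : T_FAC) : T_FAX := by
  intro k _ _ _ m d W K H f h ψ π x ρ hψ hπ hπC hπW hx hρ hρx
  obtain ⟨hx0, hxC, hxW, hπx, hxm⟩ := hx
  obtain ⟨x', hx'⟩ := hρx
  have hne : ρ * x' ≠ 0 := by rw [← hx']; exact hx0
  obtain ⟨hρC, hx'C⟩ := hCFC k m d W K H f h.toFd ρ x' hne (by rw [← hx']; exact hxC)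
  obtain ⟨θ, θ', hρW, hx'W, hθ⟩ := hFAC k (Pol k m) (Fin d → ℤ) W h.toGr 0 ρ x'
    (by rw [← hx']; exact hxW) hne
  refine ⟨hρC, θ, ?_, hρW, ?_⟩
  · rintro rfl
    rw [zero_add] at hθ
    subst hθ
    have h1 : π ∣ ρ * x' := by rw [← hx']; exact hπx
    rcases hπ.dvd_or_dvd h1 with h2 | h2
    · obtain ⟨v, hv⟩ := h2
      have hu : IsUnit v := by
        rcases hρ.irreducible.isUnit_or_isUnit hv with h3 | h3
        · exact absurd h3 hπ.not_unit
        · exact h3
      obtain ⟨c, hc, hcv⟩ := MvPolynomial.isUnit_iff_eq_C_of_isReduced.1 hu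
      have h4 : ρ ∈ W ψ := by
        rw [hv, hcv, mul_comm, ← smul_eq_C_mul]
        exact (W ψ).smul_mem c hπW
      exact hψ (wt_uniq h.toGr h4 hρW hρ.ne_zero)
    · obtain ⟨t, ht⟩ := hxm x' hx'C hx'W h2
      rw [ht] at hx'
      have h5 : x * 1 = x * (ρ * t) := by
        rw [mul_one]
        calc x = ρ * (x * t) := hx'
          _ = x * (ρ * t) := by ring
      have h6 := mul_left_cancel₀ hx0 h5
      exact hρ.not_unit (IsUnit.of_mul_eq_one t h6.symm)
  · have hθ0 : θ ≠ 0 := by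
      rintro rfl
      rw [zero_add] at hθ
      subst hθ
      have h1 : π ∣ ρ * x' := by rw [← hx']; exact hπx
      rcases hπ.dvd_or_dvd h1 with h2 | h2
      · obtain ⟨v, hv⟩ := h2
        have hu : IsUnit v := by
          rcases hρ.irreducible.isUnit_or_isUnit hv with h3 | h3
          · exact absurd h3 hπ.not_unit
          · exact h3
        obtain ⟨c, hc, hcv⟩ := MvPolynomial.isUnit_iff_eq_C_of_isReduced.1 hu
        have h4 : ρ ∈ W ψ := by
          rw [hv, hcv, mul_comm, ← smul_eq_C_mul]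
          exact (W ψ).smul_mem c hπW
        exact hψ (wt_uniq h.toGr h4 hρW hρ.ne_zero)
      · obtain ⟨t, ht⟩ := hxm x' hx'C hx'W h2
        rw [ht] at hx'
        have h5 : x * 1 = x * (ρ * t) := by
          rw [mul_one]
          calc x = ρ * (x * t) := hx'
            _ = x * (ρ * t) := by ring
        have h6 := mul_left_cancel₀ hx0 h5
        exact hρ.not_unit (IsUnit.of_mul_eq_one t h6.symm)
    obtain ⟨x1, h10, h1C, h1W, hρ1, h1m⟩ := hSPE k m d W K H f h θ ρ hθ0 hρ hρC hρW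
    obtain ⟨y, hy⟩ := h1m x hxC hxW ⟨x', hx'⟩
    have hne2 : x1 * y ≠ 0 := by rw [← hy]; exact hx0
    have hyC := (hCFC k m d W K H f h.toFd x1 y hne2 (by rw [← hy]; exact hxC)).2
    have hyW : y ∈ W 0 := by
      obtain ⟨b, c, hb, hc, hbc⟩ := hFAC k (Pol k m) (Fin d → ℤ) W h.toGr 0 x1 y
        (by rw [← hy]; exact hxW) hne2
      have hb0 : b = 0 := wt_uniq h.toGr hb h1W h10
      rw [hb0, zero_add] at hbc
      rwa [hbc] at hc
    have h7 : π ∣ x1 * y := by rw [← hy]; exact hπx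
    rcases hπ.dvd_or_dvd h7 with h8 | h8
    · have h9 := hxm x1 h1C h1W h8
      refine ⟨hx0, hxC, hxW, ⟨x', hx'⟩, fun z hz hz0 hρz => h9.trans (h1m z hz hz0 hρz)⟩
    · obtain ⟨t, ht⟩ := hxm y hyC hyW h8
      rw [ht] at hy
      have h5 : x * 1 = x * (x1 * t) := by
        rw [mul_one]
        calc x = x1 * (x * t) := hy
          _ = x * (x1 * t) := by ring
      have h6 := mul_left_cancel₀ hx0 h5
      exact absurd (isUnit_of_dvd_unit hρ1 (IsUnit.of_mul_eq_one t h6.symm)) hρ.not_unit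

end Pool.Agent.H56.TG
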