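import Pool.Agent.H56.TG.SPE

/-!
Row IMS of the board `tga_modules` (helper56).
-/

set_option autoImplicit false

namespace Pool.Agent.H56.TG

open MvPolynomial Pool.Agent.H2.ST Pool.Agent.H15.TG

theorem Dv_aeval (hDVR : T_DVR) {k : Type} [Field k] [IsAlgClosed k] [CharZero k] {m d : ℕ}
    {W : (Fin d → ℤ) → Submodule k (Pol k m)} {K : Subalgebra k (Pol k m)}
    {H : Fin d → Pol k m} {f : Pol k m} (h : Fd W K H f) (Q : MvPolynomial (Unit ⊕ Fin d) k) :
    Dv W K f (aeval (Sum.elim (fun _ => f) H) Q)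
      (fun j => aeval (Sum.elim (fun _ => f) H) (pderiv (Sum.inr j) Q)) := by
  obtain ⟨-, -, hadd, hH, hcst⟩ := hDVR k m d W K H f h
  induction Q using MvPolynomial.induction_on with
  | C c =>
    have := hcst c
    simp only [pderiv_C, map_zero]
    rw [aeval_C]
    exact this
  | add p q hp hq =>
    have h1 := hadd _ _ _ _ hp hq
    rcases h1 with h1 | h1
    · have h2 := h1.1
      simp only [map_add]
      exact h2
    · exact absurd ⟨(aeval_mem h p).1, (aeval_mem h p).2, (aeval_mem h q).1, (aeval_mem h q).2⟩ h1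
  | mul_X p s hp =>
    have hs : Dv W K f (aeval (Sum.elim (fun _ => f) H) (X s : MvPolynomial (Unit ⊕ Fin d) k))
        (fun j => aeval (Sum.elim (fun _ => f) H)
          (pderiv (Sum.inr j) (X s : MvPolynomial (Unit ⊕ Fin d) k))) := by
      rcases s with s | i
      · have h1 : ∀ j : Fin d, pderiv (Sum.inr j) (X (Sum.inl s) : MvPolynomial (Unit ⊕ Fin d) k) =
            0 := by
          intro j
          exact pderiv_X_of_ne (by simp)
        simp only [h1, map_zero, aeval_X, Sum.elim_inl]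
        refine ⟨fun j => ⟨zero_mem _, zero_mem _⟩, fun χ g hg _ => ?_⟩
        rw [br_anti, (mem_Cf.1 hg).2]
        simp
      · have h1 : ∀ j : Fin d, aeval (Sum.elim (fun _ => f) H)
            (pderiv (Sum.inr j) (X (Sum.inr i) : MvPolynomial (Unit ⊕ Fin d) k)) =
            if j = i then (1 : Pol k m) else 0 := by
          intro j
          by_cases hji : j = i
          · subst hji
            rw [if_pos rfl, pderiv_X_self, map_one]
          · rw [if_neg hji, pderiv_X_of_ne (by simpa using fun hh => hji hh.symm), map_zero]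
        simp only [h1, aeval_X, Sum.elim_inr]
        exact hH i
    rcases hadd _ _ _ _ hp hs with h1 | h1
    · have h2 := h1.2
      have h3 : (fun j => aeval (Sum.elim (fun _ => f) H) p *
          aeval (Sum.elim (fun _ => f) H)
            (pderiv (Sum.inr j) (X s : MvPolynomial (Unit ⊕ Fin d) k)) +
          aeval (Sum.elim (fun _ => f) H) (X s : MvPolynomial (Unit ⊕ Fin d) k) *
            aeval (Sum.elim (fun _ => f) H) (pderiv (Sum.inr j) p)) =
          fun j => aeval (Sum.elim (fun _ => f) H) (pderiv (Sum.inr j) (p * X s)) := by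
        funext j
        rw [pderiv_mul, map_add, map_mul, map_mul]
        ring
      rw [h3] at h2
      rw [map_mul]
      exact h2
    · exact absurd ⟨(aeval_mem h p).1, (aeval_mem h p).2, (aeval_mem h _).1, (aeval_mem h _).2⟩ h1

theorem pf_IMS (hCZF : T_CZF) (hIND : T_IND) (hDVR : T_DVR) : T_IMS := by
  intro k _ _ _ m d W K H f π σ q y ψ l h
  obtain ⟨j0, hj0⟩ := h.y0
  refine ⟨j0, ?_⟩
  intro P hP
  by_contra hP0
  set φ : MvPolynomial (Unit ⊕ Fin d) k →ₐ[k] Pol k m := aeval (Sum.elim (fun _ => f) H) with hφ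
  have hinj : Function.Injective φ := hIND k m d W K H f h.toFd
  -- the polynomial in all variables
  let ι : Unit ⊕ {i : Fin d // i ≠ j0} → Unit ⊕ Fin d := Sum.map id Subtype.val
  have hι : Function.Injective ι := Function.Injective.sumMap Function.injective_id
    Subtype.val_injective
  set Q := rename ι P with hQ
  have hQ0 : Q ≠ 0 := by
    intro h0
    apply hP0
    exact rename_injective ι hι (by rw [map_zero]; exact h0)
  have hz : φ Q = aeval (Sum.elim (fun _ : Unit => f) (fun i : {i : Fin d // i ≠ j0} => H i.1)) P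
      := by
    rw [hφ, hQ, aeval_rename]
    congr 1
    congr 1
    funext s
    rcases s with s | s <;> rfl
  have hz0 : φ Q ≠ 0 := by
    intro h0
    exact hQ0 (hinj (by rw [h0, map_zero]))
  rw [← hz, Ideal.mem_span_singleton] at hP
  obtain ⟨hx0, hxC, hxW, -, hxm⟩ := h.sσ
  obtain ⟨w, hw⟩ := hxm (φ Q) (aeval_mem h.toFd Q).1 (aeval_mem h.toFd Q).2 hP
  set x := π * σ with hx
  have hne : x * w ≠ 0 := by rw [← hw]; exact hz0
  have hwK : w ∈ K := (h.fc x w hne (by rw [← hw]; exact (mem_Cf.1 (aeval_mem h.toFd Q).1).1)).2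
  have hwC : w ∈ Cf K f := by
    refine mem_Cf.2 ⟨hwK, ?_⟩
    have h1 := (mem_Cf.1 (aeval_mem h.toFd Q).1).2
    have h2 : br f (x * w) = 0 := by rw [← hw]; exact h1
    rw [br_mul, (mem_Cf.1 hxC).2, mul_zero, add_zero] at h2
    exact (mul_eq_zero.1 h2).resolve_left hx0
  have hwW : w ∈ W 0 := by
    refine mem_of_cmp h.toGr fun b hb => ?_
    have h1 := cmp_mul_of_mem h.toGr hxW w b
    rw [mul_comm, ← hw] at h1
    have h2 := cmp_of_mem h.toGr (aeval_mem h.toFd Q).2
    have h3 : cmp h.toGr (φ Q) b = 0 := by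
      show cmp h.toGr (aeval (Sum.elim (fun _ => f) H) Q) b = 0
      rw [h2, Finsupp.single_eq_of_ne hb]
    rw [add_zero, h3] at h1
    exact (mul_eq_zero.1 h1.symm).resolve_right hx0
  obtain ⟨Q1, hQ1⟩ := hCZF k m d W K H f h.toGd w hwC hwW
  obtain ⟨Q0, hQ0'⟩ := hCZF k m d W K H f h.toGd x hxC hxW
  have hmul : Q = Q0 * Q1 := by
    refine hinj ?_
    rw [map_mul]
    show φ Q = aeval (Sum.elim (fun _ => f) H) Q0 * aeval (Sum.elim (fun _ => f) H) Q1
    rw [hQ0', hQ1]
    exact hw
  have hd1 : degreeOf (Sum.inr j0) Q = 0 := by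
    rw [hQ, ← Nat.lt_one_iff, degreeOf_lt_iff Nat.one_pos]
    intro c hc
    rw [mem_support_iff] at hc
    obtain ⟨u, hu, -⟩ := coeff_rename_ne_zero ι P c hc
    rw [← hu, Nat.lt_one_iff]
    refine Finsupp.mapDomain_notin_range u _ ?_
    rintro ⟨s, hs⟩
    rcases s with s | s
    · exact absurd hs (by simp [ι])
    · have : s.1 = j0 := by simpa [ι] using hs
      exact s.2 this
  have hQ00 : Q0 ≠ 0 := by
    rintro rfl
    rw [zero_mul] at hmul
    exact hQ0 hmul
  have hQ10 : Q1 ≠ 0 := by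
    rintro rfl
    rw [mul_zero] at hmul
    exact hQ0 hmul
  have hd2 : degreeOf (Sum.inr j0) Q0 = 0 := by
    rw [hmul, degreeOf_mul_eq hQ00 hQ10] at hd1
    omega
  have hpd : pderiv (Sum.inr j0) Q0 = 0 := by
    refine pderiv_eq_zero_of_notMem_vars ?_
    intro hmem
    rw [← Nat.lt_one_iff, degreeOf_lt_iff Nat.one_pos] at hd2
    obtain ⟨c, hc, hcs⟩ := (mem_vars _).1 hmem
    exact (Finsupp.mem_support_iff.1 hcs) (Nat.lt_one_iff.1 (hd2 c hc))
  have hDv := Dv_aeval hDVR h.toFd Q0
  rw [hQ0'] at hDv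
  have huniq := (hDVR k m d W K H f h.toFd).1 x _ _ h.dv hDv
  apply hj0
  rw [huniq]
  show aeval (Sum.elim (fun _ => f) H) (pderiv (Sum.inr j0) Q0) = 0
  rw [hpd, map_zero]

end Pool.Agent.H56.TG
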