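import Pool.Agent.H15.TG.Targets

/-!
Row SPE of the board `tga_modules` (helper56).
-/

set_option autoImplicit false

namespace Pool.Agent.H56.TG

open MvPolynomial Pool.Agent.H2.ST Pool.Agent.H15.TG

theorem aeval_mem {k : Type} [Field k] {m d : ℕ}
    {W : (Fin d → ℤ) → Submodule k (Pol k m)} {K : Subalgebra k (Pol k m)}
    {H : Fin d → Pol k m} {f : Pol k m} (h : Fd W K H f) (Q : MvPolynomial (Unit ⊕ Fin d) k) :
    aeval (Sum.elim (fun _ => f) H) Q ∈ Cf K f ∧ aeval (Sum.elim (fun _ => f) H) Q ∈ W 0 := by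
  have h1 : aeval (Sum.elim (fun _ => f) H) Q ∈
      Algebra.adjoin k (Set.range (Sum.elim (fun _ : Unit => f) H)) := by
    rw [Algebra.adjoin_range_eq_range_aeval]
    exact ⟨Q, rfl⟩
  constructor
  · refine (Algebra.adjoin_le ?_ : Algebra.adjoin k _ ≤ Cf K f) h1
    rintro z ⟨s, rfl⟩
    rcases s with s | j
    · exact mem_Cf.2 ⟨h.fK, br_self f⟩
    · refine mem_Cf.2 ⟨h.hK j, ?_⟩
      have h2 := h.eu j 0 f h.fK h.f0
      simp only [Pi.zero_apply, Int.cast_zero, zero_smul] at h2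
      show br f (H j) = 0
      rw [br_anti, h2, neg_zero]
  · refine (Algebra.adjoin_le ?_ : Algebra.adjoin k _ ≤ zeroPart h.toGr) h1
    rintro z ⟨s, rfl⟩
    rcases s with s | j
    · exact h.f0
    · exact h.h0 j

theorem pf_SPE (hPRX : T_PRX) (hCZF : T_CZF) (hIND : T_IND) (hCOC : T_COC) : T_SPE := by
  intro k _ _ _ m d W K H f h ψ π hψ hπ hπC hπW
  set φ : MvPolynomial (Unit ⊕ Fin d) k →ₐ[k] Pol k m := aeval (Sum.elim (fun _ => f) H) with hφ
  have hinj : Function.Injective φ := hIND k m d W K H f h.toFd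
  let e0 : Unit ⊕ Fin d ≃ Option (Fin d) :=
    (Equiv.sumComm Unit (Fin d)).trans (Equiv.optionEquivSumPUnit (Fin d)).symm
  let e : MvPolynomial (Unit ⊕ Fin d) k ≃ₐ[k] Polynomial (MvPolynomial (Fin d) k) :=
    (renameEquiv k e0).trans (optionEquivLeft k (Fin d))
  have heX : ∀ j : Fin d, e (X (Sum.inr j)) = Polynomial.C (X j) := by
    intro j
    show optionEquivLeft k (Fin d) (rename e0 (X (Sum.inr j))) = _
    rw [rename_X]
    have : e0 (Sum.inr j) = some j := rfl
    rw [this, optionEquivLeft_X_some]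
  have hC : ∀ r : MvPolynomial (Fin d) k, φ (e.symm (Polynomial.C r)) = aeval H r := by
    intro r
    have hh : (φ.comp (e.symm.toAlgHom)).comp
        (Algebra.algHom k (MvPolynomial (Fin d) k) (Polynomial (MvPolynomial (Fin d) k))) =
        aeval H := by
      refine algHom_ext fun j => ?_
      show φ (e.symm (Polynomial.C (X j))) = aeval H (X j)
      rw [← heX j, AlgEquiv.symm_apply_apply, hφ, aeval_X, aeval_X]
      rfl
    exact DFunLike.congr_fun hh r
  set P : Ideal (Polynomial (MvPolynomial (Fin d) k)) :=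
    (Ideal.span {π}).comap (φ.comp e.symm.toAlgHom) with hP
  have hmem : ∀ q, q ∈ P ↔ π ∣ φ (e.symm q) := by
    intro q
    rw [hP, Ideal.mem_comap, Ideal.mem_span_singleton]
    rfl
  have hπ0 : π ≠ 0 := hπ.ne_zero
  have hspan : (Ideal.span {π}).IsPrime := (Ideal.span_singleton_prime hπ0).2 hπ
  have hPp : P.IsPrime := Ideal.IsPrime.comap _
  obtain ⟨q, hq⟩ := hPRX (MvPolynomial (Fin d) k) P hPp (by
    intro r hr
    rw [hmem, hC] at hr
    exact h.zz ψ π r hψ hπ0 (mem_Cf.1 hπC).1 hπW hr)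
  have hqP : q ∈ P := by
    rw [hq]
    exact Ideal.mem_span_singleton_self q
  refine ⟨φ (e.symm q), ?_, (aeval_mem h.toFd _).1, (aeval_mem h.toFd _).2, (hmem q).1 hqP, ?_⟩
  · intro h0
    obtain ⟨g, hg, hgW, hg0⟩ := hCOC k m d W K H f h.toFd (-ψ)
      (h.ng ψ ⟨π, (mem_Cf.1 hπC).1, hπW, hπ0⟩)
    have h1 : π * g ∈ Cf K f := mul_mem hπC hg
    have h2 : π * g ∈ W 0 := by
      have := h.mul _ _ _ _ hπW hgW
      rwa [add_neg_cancel] at this
    obtain ⟨Q, hQ⟩ := hCZF k m d W K H f h (π * g) h1 h2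
    have h3 : e Q ∈ P := by
      rw [hmem, AlgEquiv.symm_apply_apply]
      show π ∣ aeval (Sum.elim (fun _ => f) H) Q
      rw [hQ]
      exact Dvd.intro _ rfl
    have hq0 : q = 0 := by
      have h4 : e.symm q = 0 := hinj (by rw [h0, map_zero])
      have h5 := congrArg e h4
      rwa [AlgEquiv.apply_symm_apply, map_zero] at h5
    rw [hq, hq0, Ideal.span_singleton_eq_bot.2 rfl, Ideal.mem_bot] at h3
    have h6 : Q = 0 := by
      have h7 := congrArg e.symm h3
      rwa [AlgEquiv.symm_apply_apply, map_zero] at h7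
    rw [h6, map_zero] at hQ
    exact mul_ne_zero hπ0 hg0 hQ.symm
  · intro y hy hy0 hdvd
    obtain ⟨Q, hQ⟩ := hCZF k m d W K H f h y hy hy0
    have h3 : e Q ∈ P := by
      rw [hmem, AlgEquiv.symm_apply_apply]
      show π ∣ aeval (Sum.elim (fun _ => f) H) Q
      rw [hQ]
      exact hdvd
    rw [hq, Ideal.mem_span_singleton] at h3
    obtain ⟨t, ht⟩ := h3
    refine ⟨φ (e.symm t), ?_⟩
    rw [← map_mul, ← map_mul, ← ht, AlgEquiv.symm_apply_apply]
    exact hQ.symm

end Pool.Agent.H56.TG
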